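import Pool.Agent.H80.Gq2

set_option autoImplicit false

namespace Pool.Agent.Results.MP_c22ba5_pr.Even

open MeasureTheory ProbabilityTheory

theorem result (n : ℕ) (hn : 1 ≤ n) (p : ℕ) (hp : Even p) :
    IsGreatest {v : ℝ | ∃ a : Fin n → ℝ, ∑ i, a i ^ 2 = 1 ∧
        v = ∫ g : Fin n → ℝ, |∑ i, a i * (g i ^ 2 - 1)| ^ p ∂(Measure.pi fun _ => gaussianReal 0 1)}
      (∫ x : ℝ, |x ^ 2 - 1| ^ p ∂gaussianReal 0 1) := by
  simp only [hp.pow_abs]
  constructor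
  · refine ⟨Pi.single ⟨0, hn⟩ 1, ?_, ?_⟩
    · rw [Finset.sum_eq_single ⟨0, hn⟩ (fun b _ hb => by simp [hb]) (by simp)]; simp
    · rw [← integral_comp_eval (μ := fun _ : Fin n => gaussianReal 0 1) (i := ⟨0, hn⟩)
        (Pool.Agent.H80.Gq.int_m p).1]
      congr 1; ext g
      rw [Finset.sum_eq_single ⟨0, hn⟩ (fun b _ hb => by simp [hb]) (by simp)]; simp
  · rintro v ⟨a, ha, rfl⟩
    exact (le_abs_self _).trans (Pool.Agent.H80.Gq.main a ha p)

end Pool.Agent.Results.MP_c22ba5_pr.Even
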